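import Pool.Agent.H.MP_fa571f_co.C

set_option autoImplicit false

namespace Pool.Agent.Results.MP_fa571f_co.Full

open Pool.Agent.H.MP_fa571f_co

/-- Player 1 has a strategy `σ` (a map from the list of all previous moves to his next symbol in
`{0,1,2}`) such that every play `s` in which Player 1 (positions 0, 2, 4, ...) follows `σ` and
Player 2 (positions 1, 3, 5, ...) plays symbols from `{0,1}` contains no square `xx` with
`|x| = r ≥ 2`. -/
theorem result : ∃ σ : List (Fin 3) → Fin 3, ∀ s : ℕ → Fin 3,
    (∀ k : ℕ, s (2 * k) = σ (List.ofFn (fun i : Fin (2 * k) => s i))) →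
    (∀ k : ℕ, s (2 * k + 1) = 0 ∨ s (2 * k + 1) = 1) →
    ¬ ∃ k r : ℕ, 2 ≤ r ∧ ∀ i : ℕ, i < r → s (k + i) = s (k + r + i) := by
  obtain ⟨w, h1, h2, h3⟩ := exists_word
  refine ⟨fun l => ⟨w (l.length / 2), h1 _⟩, ?_⟩
  intro s hs1 hs2 ⟨k, r, hr, hsq⟩
  have ev : ∀ n m, n = 2 * m → (s n).val = w m := by
    intro n m hn
    subst hn
    rw [hs1 m]
    simp
  have od : ∀ n, n % 2 = 1 → (s n).val ≠ 2 := by
    intro n hn
    have := hs2 (n / 2)
    rw [show 2 * (n / 2) + 1 = n by omega] at this
    rcases this with h | h <;> rw [h] <;> decide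
  rcases Nat.mod_two_eq_zero_or_one r with hr2 | hr2
  · -- even period
    apply h3 ((k+1)/2) (r/2) (by omega)
    intro j hj
    have a := hsq (2 * ((k+1)/2 + j) - k) (by omega)
    rw [← ev (k + (2 * ((k+1)/2 + j) - k)) _ (by omega),
      ← ev (k + r + (2 * ((k+1)/2 + j) - k)) _ (by omega), a]
  · -- odd period: every even position of the window holds a symbol of Player 2
    have key : ∀ m, k ≤ 2 * m → 2 * m < k + 2 * r → w m ≠ 2 := by
      intro m hm1 hm2
      rw [← ev (2 * m) m rfl]
      by_cases hc : 2 * m < k + r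
      · have a := hsq (2 * m - k) (by omega)
        rw [show k + (2 * m - k) = 2 * m by omega] at a
        rw [a]
        exact od _ (by omega)
      · have a := hsq (2 * m - (k + r)) (by omega)
        rw [show k + r + (2 * m - (k + r)) = 2 * m by omega] at a
        rw [← a]
        exact od _ (by omega)
    rcases h2 ((k+1)/2) with h | h | h
    · exact key _ (by omega) (by omega) h
    · exact key _ (by omega) (by omega) h
    · exact key _ (by omega) (by omega) h

end Pool.Agent.Results.MP_fa571f_co.Full
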